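import Pool.Agent.Helper61.QT.GoalsH
import Pool.Agent.Helper78.QS.LP

/-!
# Project QT (MP_0ebdb3_gt), packet LP2: the transports along the edges of the square
-/

set_option autoImplicit false

open Set

namespace Pool.Agent.Helper32.QT

open Pool.Agent.Helper61 Pool.Agent.Helper61.QT
open Pool.Agent.Helper61.QS (V En R4 IsIso compr)
open Pool.Agent.Helper78.QS (inter compr_unitary compr_one continuous_compr eps_comp comp_congr)

variable {n k : ℕ}

theorem isoU {A ε ε' : En n} {J : V k →L[ℝ] V n} (hJ : IsIso ε J) (hu : A ∈ unitary (En n))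
    (hA : A * ε = ε' * A) : IsIso ε' (A.comp J) := by
  have h1 : star A * A = 1 := (Unitary.mem_iff.1 hu).1
  have h2 : A * star A = 1 := (Unitary.mem_iff.1 hu).2
  constructor
  · rw [ContinuousLinearMap.adjoint_comp]
    have h3 : ((ContinuousLinearMap.adjoint J).comp (ContinuousLinearMap.adjoint A)).comp
          (A.comp J) = (ContinuousLinearMap.adjoint J).comp ((star A * A).comp J) := rfl
    rw [h3, h1]
    exact hJ.left
  · rw [ContinuousLinearMap.adjoint_comp]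
    have h3 : (A.comp J).comp ((ContinuousLinearMap.adjoint J).comp
        (ContinuousLinearMap.adjoint A)) =
        A * (J.comp (ContinuousLinearMap.adjoint J)) * star A := rfl
    rw [h3, hJ.right, hA, mul_assoc, h2, mul_one]

theorem contDiff_compr (J J' : V k →L[ℝ] V n) : ContDiff ℝ 1 (compr J J' : En n → En k) := by
  unfold compr
  exact contDiff_const.clm_comp (contDiff_id.clm_comp contDiff_const)

section main

variable {a b : ℤ} {ε R T : R4 → En n} {J : V k →L[ℝ] V n}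

theorem e00 (h : Hol2 a b ε R T) (α β : ℝ) : ε (0, 0, α, β) = ε (0, 0, 0, 0) := by
  rw [(h.r0 0 α β).1, (h.s0 0 0 β).1]

theorem e10 (h : Hol2 a b ε R T) (α β : ℝ) :
    ε (Real.pi / 2, 0, α, β) = ε (Real.pi / 2, 0, 0, 0) := by
  rw [(h.s0 (Real.pi / 2) α β).1, (h.r1 0 α 0).1, (h.s0 (Real.pi / 2) 0 _).1]

theorem e01 (h : Hol2 a b ε R T) (α β : ℝ) :
    ε (0, Real.pi / 2, α, β) = ε (0, Real.pi / 2, 0, 0) := by
  rw [(h.s1 0 α β).1, (h.r0 (Real.pi / 2) _ 0).1]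

theorem e11 (hab : b = 0 ∨ (a = 1 ∧ b = 2)) (h : Hol2 a b ε R T) (α β : ℝ) :
    ε (Real.pi / 2, Real.pi / 2, α, β) = ε (Real.pi / 2, Real.pi / 2, 0, 0) := by
  have key : ∀ α β : ℝ, ε (Real.pi / 2, Real.pi / 2, α + b * β, 0) =
      ε (Real.pi / 2, Real.pi / 2, 0 + b * (β + a * α), 0) := by
    intro α β
    rw [← (h.s1 (Real.pi / 2) α β).1, ← (h.s1 (Real.pi / 2) 0 _).1, ← (h.r1 (Real.pi / 2) α β).1]
  rw [(h.s1 (Real.pi / 2) α β).1]
  rcases hab with rfl | ⟨rfl, rfl⟩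
  · have h1 := key (α + ((0 : ℤ) : ℝ) * β) 0
    simp only [Int.cast_zero, zero_mul, add_zero] at h1 ⊢
    exact h1
  · have h1 := key (α + ((2 : ℤ) : ℝ) * β) (-(α + ((2 : ℤ) : ℝ) * β) / 2)
    have e1 : α + ((2 : ℤ) : ℝ) * β + ((2 : ℤ) : ℝ) * (-(α + ((2 : ℤ) : ℝ) * β) / 2) = 0 := by
      push_cast; ring
    have e2 : 0 + ((2 : ℤ) : ℝ) * (-(α + ((2 : ℤ) : ℝ) * β) / 2 +
        ((1 : ℤ) : ℝ) * (α + ((2 : ℤ) : ℝ) * β)) = α + ((2 : ℤ) : ℝ) * β := by
      push_cast; ring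
    rw [e1, e2] at h1
    exact h1.symm

theorem ig (h : Hol2 a b ε R T) (α : ℝ) :
    R (Real.pi / 2, 0, α, 0) * ε (0, 0, 0, 0) =
      ε (Real.pi / 2, 0, 0, 0) * R (Real.pi / 2, 0, α, 0) := by
  have h1 := h.iR (Real.pi / 2) 0 α 0
  rw [e00 h, e10 h] at h1
  exact h1.symm

theorem jf (h : Hol2 a b ε R T) (β : ℝ) :
    T (0, Real.pi / 2, 0, β) * ε (0, 0, 0, 0) =
      ε (0, Real.pi / 2, 0, 0) * T (0, Real.pi / 2, 0, β) := by
  have h1 := h.iT 0 (Real.pi / 2) 0 β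
  rw [e00 h, e01 h] at h1
  exact h1.symm

theorem iv (hab : b = 0 ∨ (a = 1 ∧ b = 2)) (h : Hol2 a b ε R T) (β : ℝ) :
    T (Real.pi / 2, Real.pi / 2, 0, β) * ε (Real.pi / 2, 0, 0, 0) =
      ε (Real.pi / 2, Real.pi / 2, 0, 0) * T (Real.pi / 2, Real.pi / 2, 0, β) := by
  have h1 := h.iT (Real.pi / 2) (Real.pi / 2) 0 β
  rw [e10 h, e11 hab h] at h1
  exact h1.symm

theorem il (hab : b = 0 ∨ (a = 1 ∧ b = 2)) (h : Hol2 a b ε R T) (α : ℝ) :
    R (Real.pi / 2, Real.pi / 2, α, 0) * ε (0, Real.pi / 2, 0, 0) =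
      ε (Real.pi / 2, Real.pi / 2, 0, 0) * R (Real.pi / 2, Real.pi / 2, α, 0) := by
  have h1 := h.iR (Real.pi / 2) (Real.pi / 2) α 0
  rw [e01 h, e11 hab h] at h1
  exact h1.symm

theorem iso10 (h : Hol2 a b ε R T) (hJ : IsIso (ε (0, 0, 0, 0)) J) :
    IsIso (ε (Real.pi / 2, 0, 0, 0)) (J10 J R) := isoU hJ (h.uR _) (ig h 0)

theorem iso01 (h : Hol2 a b ε R T) (hJ : IsIso (ε (0, 0, 0, 0)) J) :
    IsIso (ε (0, Real.pi / 2, 0, 0)) (J01 J T) := isoU hJ (h.uT _) (jf h 0)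

theorem iso11 (hab : b = 0 ∨ (a = 1 ∧ b = 2)) (h : Hol2 a b ε R T)
    (hJ : IsIso (ε (0, 0, 0, 0)) J) :
    IsIso (ε (Real.pi / 2, Real.pi / 2, 0, 0)) (J11 J R T) :=
  isoU (iso10 h hJ) (h.uT _) (iv hab h 0)

theorem facG (h : Hol2 a b ε R T) (hJ : IsIso (ε (0, 0, 0, 0)) J) (α : ℝ) :
    (R (Real.pi / 2, 0, α, 0)).comp J = (J10 J R).comp (lg J R α) :=
  inter hJ (iso10 h hJ) (ig h α)

theorem facF (h : Hol2 a b ε R T) (hJ : IsIso (ε (0, 0, 0, 0)) J) (β : ℝ) :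
    (T (0, Real.pi / 2, 0, β)).comp J = (J01 J T).comp (lf J T β) :=
  inter hJ (iso01 h hJ) (jf h β)

theorem facV (hab : b = 0 ∨ (a = 1 ∧ b = 2)) (h : Hol2 a b ε R T)
    (hJ : IsIso (ε (0, 0, 0, 0)) J) (β : ℝ) :
    (T (Real.pi / 2, Real.pi / 2, 0, β)).comp (J10 J R) = (J11 J R T).comp (lv J R T β) :=
  inter (iso10 h hJ) (iso11 hab h hJ) (iv hab h β)

theorem facL (hab : b = 0 ∨ (a = 1 ∧ b = 2)) (h : Hol2 a b ε R T)
    (hJ : IsIso (ε (0, 0, 0, 0)) J) (α : ℝ) :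
    (R (Real.pi / 2, Real.pi / 2, α, 0)).comp (J01 J T) = (J11 J R T).comp (ll J R T α) :=
  inter (iso01 h hJ) (iso11 hab h hJ) (il hab h α)

theorem comm' (h : Hol2 a b ε R T) (hJ : IsIso (ε (0, 0, 0, 0)) J) (α β : ℝ) :
    (T (Real.pi / 2, Real.pi / 2, 0, β + a * α)).comp ((R (Real.pi / 2, 0, α, 0)).comp J) =
      (R (Real.pi / 2, Real.pi / 2, α + b * β, 0)).comp ((T (0, Real.pi / 2, 0, β)).comp J) := by
  have c := comp_congr hJ (h.comm (Real.pi / 2) (Real.pi / 2) α β)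
  rw [(h.r1 (Real.pi / 2) α β).2, (h.s0 (Real.pi / 2) α β).2, (h.s1 (Real.pi / 2) α β).2,
    (h.r0 (Real.pi / 2) α β).2] at c
  exact c

theorem rel (hab : b = 0 ∨ (a = 1 ∧ b = 2)) (h : Hol2 a b ε R T)
    (hJ : IsIso (ε (0, 0, 0, 0)) J) (α β : ℝ) :
    lv J R T (β + a * α) * lg J R α = ll J R T (α + b * β) * lf J T β := by
  have hKK := (iso11 hab h hJ).left
  have hfin : ∀ A : En k, (ContinuousLinearMap.adjoint (J11 J R T)).comp
      ((J11 J R T).comp A) = A := by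
    intro A
    rw [← ContinuousLinearMap.comp_assoc, hKK, ContinuousLinearMap.id_comp]
  have hl : (J11 J R T).comp (lv J R T (β + a * α) * lg J R α) =
      (T (Real.pi / 2, Real.pi / 2, 0, β + a * α)).comp ((R (Real.pi / 2, 0, α, 0)).comp J) := by
    calc (J11 J R T).comp (lv J R T (β + a * α) * lg J R α)
        = ((J11 J R T).comp (lv J R T (β + a * α))).comp (lg J R α) := rfl
      _ = ((T (Real.pi / 2, Real.pi / 2, 0, β + a * α)).comp (J10 J R)).comp (lg J R α) := by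
          rw [facV hab h hJ]
      _ = (T (Real.pi / 2, Real.pi / 2, 0, β + a * α)).comp ((J10 J R).comp (lg J R α)) := rfl
      _ = _ := by rw [facG h hJ]
  have hr : (J11 J R T).comp (ll J R T (α + b * β) * lf J T β) =
      (R (Real.pi / 2, Real.pi / 2, α + b * β, 0)).comp ((T (0, Real.pi / 2, 0, β)).comp J) := by
    calc (J11 J R T).comp (ll J R T (α + b * β) * lf J T β)
        = ((J11 J R T).comp (ll J R T (α + b * β))).comp (lf J T β) := rfl
      _ = ((R (Real.pi / 2, Real.pi / 2, α + b * β, 0)).comp (J01 J T)).comp (lf J T β) := by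
          rw [facL hab h hJ]
      _ = (R (Real.pi / 2, Real.pi / 2, α + b * β, 0)).comp ((J01 J T).comp (lf J T β)) := rfl
      _ = _ := by rw [facF h hJ]
  rw [← hfin (lv J R T (β + a * α) * lg J R α), hl, comm' h hJ, ← hr, hfin]

end main

theorem goalLP2 : G_LP2 := by
  intro a b n k ε R T J hab h hJ
  refine ⟨?_, facG h hJ, facF h hJ⟩
  refine
    { unit := fun x => ⟨compr_unitary hJ (iso10 h hJ) (ig h x) (h.uR _),
        compr_unitary hJ (iso01 h hJ) (jf h x) (h.uT _),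
        compr_unitary (iso10 h hJ) (iso11 hab h hJ) (iv hab h x) (h.uT _),
        compr_unitary (iso01 h hJ) (iso11 hab h hJ) (il hab h x) (h.uR _)⟩
      smg := (contDiff_compr _ _).comp h.smg
      smf := (contDiff_compr _ _).comp h.smf
      smv := (contDiff_compr _ _).comp h.smv
      sml := (contDiff_compr _ _).comp h.sml
      per := fun x => ⟨?_, ?_, ?_, ?_⟩
      one := ⟨?_, ?_, ?_, ?_⟩
      rel := rel hab h hJ }
  · rw [lg, lg, (h.perα (Real.pi / 2) 0 x 0).2.1]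
  · rw [lf, lf, (h.perβ 0 (Real.pi / 2) 0 x).2.2]
  · rw [lv, lv, (h.perβ (Real.pi / 2) (Real.pi / 2) 0 x).2.2]
  · rw [ll, ll, (h.perα (Real.pi / 2) (Real.pi / 2) x 0).2.1]
  · exact (iso10 h hJ).left
  · exact (iso01 h hJ).left
  · exact (iso11 hab h hJ).left
  · have c := comm' h hJ 0 0
    rw [mul_zero, mul_zero, add_zero] at c
    have h1 : ll J R T 0 = (ContinuousLinearMap.adjoint (J11 J R T)).comp
        ((R (Real.pi / 2, Real.pi / 2, 0, 0)).comp ((T (0, Real.pi / 2, 0, 0)).comp J)) := rfl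
    rw [h1, ← c]
    exact (iso11 hab h hJ).left

end Pool.Agent.Helper32.QT
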