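import Pool.Agent.Helper61.QT.GoalsP

/-!
# Project QT+ (MP_0ebdb3_gt), packet QT+-TD: the data of a torus-invariant metric
-/

set_option autoImplicit false

open Set ComplexConjugate

namespace Pool.Agent.Helper32.QT

open Pool.Agent.Helper61 Pool.Agent.Helper61.QG Pool.Agent.Helper61.QT
open Pool.Agent.Helper61.QS (V En rk R4 IsCurv SecNN Gam dd)
open Pool.Agent.Helper61.QM (Model W2 Mab pol2 act2 o1 o2 rot IsRe IsIm)

theorem im4_add (v w : R4) : im4 (v + w) = im4 v + im4 w := by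
  refine Prod.ext (Prod.ext ?_ ?_) (Prod.ext ?_ ?_) <;> simp [im4, mul_add]

theorem im4_smul (c : ℝ) (v : R4) : im4 (c • v) = c • im4 v := by
  refine Prod.ext (Prod.ext ?_ ?_) (Prod.ext ?_ ?_) <;> simp [im4] <;> ring

theorem im4_sub (v w : R4) : im4 (v - w) = im4 v - im4 w := by
  have h := im4_add (v - w) w
  rw [sub_add_cancel] at h
  rw [h, add_sub_cancel_right]

theorem rp_mem (a b : ℤ) (z : ℝ × ℝ) : rp z ∈ (Mab a b).X := by
  change ‖((Real.cos z.1 : ℝ) : ℂ)‖ ^ 2 + ‖((Real.sin z.1 : ℝ) : ℂ)‖ ^ 2 = 1 ∧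
    ‖((Real.cos z.2 : ℝ) : ℂ)‖ ^ 2 + ‖((Real.sin z.2 : ℝ) : ℂ)‖ ^ 2 = 1
  simp only [Complex.norm_real, Real.norm_eq_abs, sq_abs]
  exact ⟨Real.cos_sq_add_sin_sq _, Real.cos_sq_add_sin_sq _⟩

/-- a tangent vector at the real point -/
noncomputable def tv (z : ℝ × ℝ) (u v : ℝ) (w : R4) : W2 := u • er z + v • es z + im4 w

theorem tv_mem (a b : ℤ) (z : ℝ × ℝ) (u v : ℝ) (w : R4) : tv z u v w ∈ (Mab a b).T (rp z) := by
  constructor
  · change (conj ((Real.cos z.1 : ℝ) : ℂ) * (tv z u v w).1.1 +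
      conj ((Real.sin z.1 : ℝ) : ℂ) * (tv z u v w).1.2).re = 0
    rw [Complex.conj_ofReal, Complex.conj_ofReal, Complex.add_re, Complex.re_ofReal_mul,
      Complex.re_ofReal_mul]
    have h1 : (tv z u v w).1.1.re = -(u * Real.sin z.1) := by
      simp [tv, er, es, im4, Complex.sin_ofReal_re]
    have h2 : (tv z u v w).1.2.re = u * Real.cos z.1 := by
      simp [tv, er, es, im4, Complex.cos_ofReal_re]
    rw [h1, h2]
    ring
  · change (conj ((Real.cos z.2 : ℝ) : ℂ) * (tv z u v w).2.1 +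
      conj ((Real.sin z.2 : ℝ) : ℂ) * (tv z u v w).2.2).re = 0
    rw [Complex.conj_ofReal, Complex.conj_ofReal, Complex.add_re, Complex.re_ofReal_mul,
      Complex.re_ofReal_mul]
    have h1 : (tv z u v w).2.1.re = -(v * Real.sin z.2) := by
      simp [tv, er, es, im4, Complex.sin_ofReal_re]
    have h2 : (tv z u v w).2.2.re = v * Real.cos z.2 := by
      simp [tv, er, es, im4, Complex.cos_ofReal_re]
    rw [h1, h2]
    ring

/-- the vectors tangent to the orbits are imaginary at real points -/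
theorem orb_im (a b : ℤ) (z : ℝ × ℝ) (σ τ : ℝ) : σ • o1 a (rp z) + τ • o2 b (rp z) =
    im4 ((σ + b * τ) * Real.cos z.1, σ * Real.sin z.1, (a * σ + τ) * Real.cos z.2,
      τ * Real.sin z.2) := by
  refine Prod.ext (Prod.ext ?_ ?_) (Prod.ext ?_ ?_)
  · simp [im4, o1, o2, rp]
    ring
  · simp [im4, o1, o2, rp]
    ring
  · simp [im4, o1, o2, rp]
    ring
  · simp [im4, o1, o2, rp]
    ring

/-- decomposition of an imaginary vector modulo the orbits -/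
theorem dec_im (a b : ℤ) (z : ℝ × ℝ) (δ t1 t2 t3 t4 : ℝ) (hδ : δ * (1 - a * b) = 1) :
    im4 (Real.cos z.1 * t1, Real.sin z.1 * t2, Real.cos z.2 * t3, Real.sin z.2 * t4) =
      im4 (0, (t2 - δ * t1 + δ * b * t3) * Real.sin z.1, 0,
        (t4 + δ * a * t1 - δ * t3) * Real.sin z.2) +
      ((δ * (t1 - b * t3)) • o1 a (rp z) + (δ * (t3 - a * t1)) • o2 b (rp z)) := by
  rw [orb_im, ← im4_add]
  congr 1
  refine Prod.ext ?_ (Prod.ext ?_ (Prod.ext ?_ ?_))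
  · change Real.cos z.1 * t1 = 0 + (δ * (t1 - b * t3) + b * (δ * (t3 - a * t1))) * Real.cos z.1
    linear_combination -(Real.cos z.1 * t1) * hδ
  · change Real.sin z.1 * t2 = (t2 - δ * t1 + δ * b * t3) * Real.sin z.1 +
      (δ * (t1 - b * t3)) * Real.sin z.1
    ring
  · change Real.cos z.2 * t3 = 0 + (a * (δ * (t1 - b * t3)) + δ * (t3 - a * t1)) * Real.cos z.2
    linear_combination -(Real.cos z.2 * t3) * hδ
  · change Real.sin z.2 * t4 = (t4 + δ * a * t1 - δ * t3) * Real.sin z.2 +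
      (δ * (t3 - a * t1)) * Real.sin z.2
    ring

theorem er_im (z : ℝ × ℝ) (w : R4) : er z + im4 w = tv z 1 0 w := by
  simp [tv]

theorem es_im (z : ℝ × ℝ) (w : R4) : es z + im4 w = tv z 0 1 w := by
  simp [tv]

theorem im_tv (z : ℝ × ℝ) (w : R4) : im4 w = tv z 0 0 w := by
  simp [tv]

/-- two horizontal vectors, uniqueness of the products -/
theorem uniq {a b : ℤ} {gM : W2 → W2 →L[ℝ] W2 →L[ℝ] ℝ} (base : IsBase (Mab a b) gM) (z : ℝ × ℝ)
    {u1 v1 u2 v2 : ℝ} {w1 w1' w2 w2' : R4}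
    (h1 : ∀ w, gM (rp z) (tv z u1 v1 w1) (im4 w) = 0)
    (h2 : ∀ w, gM (rp z) (tv z u2 v2 w2') (im4 w) = 0) :
    gM (rp z) (tv z u1 v1 w1) (tv z u2 v2 w2) = gM (rp z) (tv z u1 v1 w1') (tv z u2 v2 w2') := by
  have e2 : tv z u2 v2 w2 = tv z u2 v2 w2' + im4 (w2 - w2') := by
    rw [im4_sub, tv, tv]
    abel
  have e1 : tv z u1 v1 w1 = tv z u1 v1 w1' + im4 (w1 - w1') := by
    rw [im4_sub, tv, tv]
    abel
  have s : ∀ w w', gM (rp z) (tv z u1 v1 w) (tv z u2 v2 w') =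
      gM (rp z) (tv z u2 v2 w') (tv z u1 v1 w) := fun w w' =>
    base.symm _ (rp_mem a b z) _ (tv_mem a b z u1 v1 w) _ (tv_mem a b z u2 v2 w')
  rw [e2, map_add, h1, add_zero, s, e1, map_add, h2, add_zero, s]

/-- vectors tangent to the orbits can be dropped -/
theorem drop {a b : ℤ} {gM : W2 → W2 →L[ℝ] W2 →L[ℝ] ℝ} (base : IsBase (Mab a b) gM) (z : ℝ × ℝ)
    {u1 v1 u2 v2 : ℝ} {w1 w1' w2 w2' : R4} {o o' : W2} (ho : o ∈ (Mab a b).O (rp z))
    (ho' : o' ∈ (Mab a b).O (rp z)) (h1 : im4 w1 = im4 w1' + o) (h2 : im4 w2 = im4 w2' + o') :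
    gM (rp z) (tv z u1 v1 w1) (tv z u2 v2 w2) = gM (rp z) (tv z u1 v1 w1') (tv z u2 v2 w2') := by
  have hoT : o' ∈ (Mab a b).T (rp z) := by
    obtain ⟨σ, τ, rfl⟩ := ho'
    rw [orb_im, im_tv z]
    exact tv_mem a b z _ _ _
  have e2 : tv z u2 v2 w2 = tv z u2 v2 w2' + o' := by
    rw [tv, h2, tv]
    abel
  have e1 : tv z u1 v1 w1 = tv z u1 v1 w1' + o := by
    rw [tv, h1, tv]
    abel
  have k1 : gM (rp z) o (tv z u2 v2 w2') = 0 :=
    base.horiz _ (rp_mem a b z) _ ho _ (tv_mem a b z _ _ _)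
  have k2 : gM (rp z) o o' = 0 := base.horiz _ (rp_mem a b z) _ ho _ hoT
  have k3 : gM (rp z) (tv z u1 v1 w1') o' = 0 := by
    rw [base.symm _ (rp_mem a b z) _ (tv_mem a b z _ _ _) _ hoT]
    exact base.horiz _ (rp_mem a b z) _ ho' _ (tv_mem a b z _ _ _)
  rw [e1, e2]
  simp only [map_add, add_apply, k1, k2, k3, add_zero]

theorem cd_im4 {f : ℝ × ℝ → R4} (hf : ContDiff ℝ 2 f) : ContDiff ℝ 2 (fun z => im4 (f z)) := by
  have h1 : ContDiff ℝ 2 (fun z => (f z).1) := contDiff_fst.comp hf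
  have h' : ContDiff ℝ 2 (fun z => (f z).2) := contDiff_snd.comp hf
  have h2 : ContDiff ℝ 2 (fun z => (f z).2.1) := contDiff_fst.comp h'
  have h'' : ContDiff ℝ 2 (fun z => (f z).2.2) := contDiff_snd.comp h'
  have h3 : ContDiff ℝ 2 (fun z => (f z).2.2.1) := contDiff_fst.comp h''
  have h4 : ContDiff ℝ 2 (fun z => (f z).2.2.2) := contDiff_snd.comp h''
  have k : ∀ g : ℝ × ℝ → ℝ, ContDiff ℝ 2 g → ContDiff ℝ 2 (fun z => Complex.I * (g z : ℂ)) :=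
    fun g hg => contDiff_const.mul (Complex.ofRealCLM.contDiff.comp hg)
  exact ((k _ h1).prodMk (k _ h2)).prodMk ((k _ h3).prodMk (k _ h4))

theorem cd_re {g : ℝ × ℝ → ℝ} (hg : ContDiff ℝ 2 g) : ContDiff ℝ 2 (fun z => (g z : ℂ)) :=
  Complex.ofRealCLM.contDiff.comp hg

theorem cd_c1 : ContDiff ℝ 2 (fun z : ℝ × ℝ => Real.cos z.1) := Real.contDiff_cos.comp contDiff_fst
theorem cd_s1 : ContDiff ℝ 2 (fun z : ℝ × ℝ => Real.sin z.1) := Real.contDiff_sin.comp contDiff_fst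
theorem cd_c2 : ContDiff ℝ 2 (fun z : ℝ × ℝ => Real.cos z.2) := Real.contDiff_cos.comp contDiff_snd
theorem cd_s2 : ContDiff ℝ 2 (fun z : ℝ × ℝ => Real.sin z.2) := Real.contDiff_sin.comp contDiff_snd

theorem cd_rp : ContDiff ℝ 2 rp :=
  ((cd_re cd_c1).prodMk (cd_re cd_s1)).prodMk ((cd_re cd_c2).prodMk (cd_re cd_s2))

theorem cd_er : ContDiff ℝ 2 er :=
  ((cd_re cd_s1).neg.prodMk (cd_re cd_c1)).prodMk (contDiff_const.prodMk contDiff_const)

theorem cd_es : ContDiff ℝ 2 es :=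
  (contDiff_const.prodMk contDiff_const).prodMk ((cd_re cd_s2).neg.prodMk (cd_re cd_c2))

theorem cd_tv {u v : ℝ} {f : ℝ × ℝ → R4} (hf : ContDiff ℝ 2 f) :
    ContDiff ℝ 2 (fun z => tv z u v (f z)) :=
  ((cd_er.const_smul u).add (cd_es.const_smul v)).add (cd_im4 hf)

theorem cd_E {gM : W2 → W2 →L[ℝ] W2 →L[ℝ] ℝ} (hg : ContDiff ℝ 3 gM) {u v u' v' : ℝ}
    {f f' : ℝ × ℝ → R4} (hf : ContDiff ℝ 2 f) (hf' : ContDiff ℝ 2 f') :
    ContDiff ℝ 2 (fun z => gM (rp z) (tv z u v (f z)) (tv z u' v' (f' z))) :=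
  ((((hg.of_le (by norm_num)).comp cd_rp).clm_apply (cd_tv hf)).clm_apply (cd_tv hf'))

/-- the Jacobian of the polar coordinates -/
def JacQ : Prop := ∀ x c : R4, fderiv ℝ pol2 x c =
    ((-(Real.sin x.1 * c.1 : ℂ), Complex.exp (x.2.2.1 * Complex.I) *
        (Real.cos x.1 * c.1 + Complex.I * Real.sin x.1 * c.2.2.1)),
      (-(Real.sin x.2.1 * c.2.1 : ℂ), Complex.exp (x.2.2.2 * Complex.I) *
        (Real.cos x.2.1 * c.2.1 + Complex.I * Real.sin x.2.1 * c.2.2.2)))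

theorem D_form (hD : JacQ) (x : R4) (u v c d : ℝ) :
    fderiv ℝ pol2 x (u, v, c, d) =
      rot ((1, Complex.exp (x.2.2.1 * Complex.I)), (1, Complex.exp (x.2.2.2 * Complex.I)))
        (tv (x.1, x.2.1) u v (0, c * Real.sin x.1, 0, d * Real.sin x.2.1)) := by
  rw [hD]
  refine Prod.ext (Prod.ext ?_ ?_) (Prod.ext ?_ ?_)
  · simp [rot, tv, er, es, im4]
    ring
  · simp [rot, tv, er, es, im4]
    ring
  · simp [rot, tv, er, es, im4]
    ring
  · simp [rot, tv, er, es, im4]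
    ring

theorem pol_form (x : R4) : pol2 x =
    rot ((1, Complex.exp (x.2.2.1 * Complex.I)), (1, Complex.exp (x.2.2.2 * Complex.I)))
      (rp (x.1, x.2.1)) := by
  unfold pol2 rot rp
  simp only [one_mul]

theorem gB_form {gM : W2 → W2 →L[ℝ] W2 →L[ℝ] ℝ} (hrot : IsRotG gM) (hD : JacQ) (x : R4)
    (u v c d u' v' c' d' : ℝ) :
    gB gM pol2 x (u, v, c, d) (u', v', c', d') = gM (rp (x.1, x.2.1))
      (tv (x.1, x.2.1) u v (0, c * Real.sin x.1, 0, d * Real.sin x.2.1))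
      (tv (x.1, x.2.1) u' v' (0, c' * Real.sin x.1, 0, d' * Real.sin x.2.1)) := by
  have h : gB gM pol2 x (u, v, c, d) (u', v', c', d') =
      gM (pol2 x) (fderiv ℝ pol2 x (u, v, c, d)) (fderiv ℝ pol2 x (u', v', c', d')) := rfl
  rw [h, D_form hD, D_form hD, pol_form]
  exact hrot _ norm_one (Complex.norm_exp_ofReal_mul_I _) norm_one
    (Complex.norm_exp_ofReal_mul_I _) _ (rp_mem 0 0 _) _ (tv_mem 0 0 _ _ _ _) _
    (tv_mem 0 0 _ _ _ _)

/-- periodicity -/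
theorem period {a b : ℤ} {gM : W2 → W2 →L[ℝ] W2 →L[ℝ] ℝ} (base : IsBase (Mab a b) gM)
    (hrot : IsRotG gM) {z z' : ℝ × ℝ} {c : W2} (c1 : ‖c.1.1‖ = 1) (c2 : ‖c.1.2‖ = 1)
    (c3 : ‖c.2.1‖ = 1) (c4 : ‖c.2.2‖ = 1) (hz : rp z' = rot c (rp z)) (n : R4 → R4)
    (hn : ∀ w, n (n w) = w) (hc : ∀ u v w, tv z' u v (n w) = rot c (tv z u v w))
    {f f' : ℝ × ℝ → R4} {u v u' v' : ℝ}
    (h1 : ∀ y w, gM (rp y) (tv y u v (f y)) (im4 w) = 0)
    (h2 : ∀ y w, gM (rp y) (tv y u' v' (f' y)) (im4 w) = 0) :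
    gM (rp z') (tv z' u v (f z')) (tv z' u' v' (f' z')) =
      gM (rp z) (tv z u v (f z)) (tv z u' v' (f' z)) := by
  have key : ∀ u v u' v' w w', gM (rp z') (tv z' u v w) (tv z' u' v' w') =
      gM (rp z) (tv z u v (n w)) (tv z u' v' (n w')) := by
    intro u v u' v' w w'
    have e1 := hc u v (n w)
    have e2 := hc u' v' (n w')
    rw [hn] at e1 e2
    rw [hz, e1, e2]
    exact hrot c c1 c2 c3 c4 _ (rp_mem 0 0 _) _ (tv_mem 0 0 _ _ _ _) _ (tv_mem 0 0 _ _ _ _)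
  rw [key]
  refine uniq base z ?_ (h2 z)
  intro w
  have h := h1 z' (n w)
  rw [im_tv z', key, hn, ← im_tv] at h
  exact h

theorem per_r (z : ℝ × ℝ) : rp (z.1 + Real.pi, z.2) = rot ((-1, -1), (1, 1)) (rp z) := by
  unfold rp rot
  simp only [one_mul, Real.cos_add_pi, Real.sin_add_pi, Complex.ofReal_neg, neg_mul]

theorem per_s (z : ℝ × ℝ) : rp (z.1, z.2 + Real.pi) = rot ((1, 1), (-1, -1)) (rp z) := by
  unfold rp rot
  simp only [one_mul, Real.cos_add_pi, Real.sin_add_pi, Complex.ofReal_neg, neg_mul]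

theorem tv_r (z : ℝ × ℝ) (u v : ℝ) (w : R4) :
    tv (z.1 + Real.pi, z.2) u v (-w.1, -w.2.1, w.2.2.1, w.2.2.2) =
      rot ((-1, -1), (1, 1)) (tv z u v w) := by
  refine Prod.ext (Prod.ext ?_ ?_) (Prod.ext ?_ ?_)
  · simp [rot, tv, er, es, im4]
    try ring
  · simp [rot, tv, er, es, im4]
    try ring
  · simp [rot, tv, er, es, im4]
  · simp [rot, tv, er, es, im4]

theorem tv_s (z : ℝ × ℝ) (u v : ℝ) (w : R4) :
    tv (z.1, z.2 + Real.pi) u v (w.1, w.2.1, -w.2.2.1, -w.2.2.2) =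
      rot ((1, 1), (-1, -1)) (tv z u v w) := by
  refine Prod.ext (Prod.ext ?_ ?_) (Prod.ext ?_ ?_)
  · simp [rot, tv, er, es, im4]
  · simp [rot, tv, er, es, im4]
  · simp [rot, tv, er, es, im4]
    try ring
  · simp [rot, tv, er, es, im4]
    try ring

/-- horizontal vectors are not tangent to the orbits -/
theorem not_orb (a b : ℤ) (z : ℝ × ℝ) (u v : ℝ) (w : R4) (huv : ¬ (u = 0 ∧ v = 0)) :
    tv z u v w ∉ (Mab a b).O (rp z) := by
  rintro ⟨σ, τ, h⟩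
  rw [orb_im] at h
  have h1 := congrArg (fun P : W2 => P.1.1.re) h
  have h2 := congrArg (fun P : W2 => P.1.2.re) h
  have h3 := congrArg (fun P : W2 => P.2.1.re) h
  have h4 := congrArg (fun P : W2 => P.2.2.re) h
  simp [tv, er, es, im4, Complex.sin_ofReal_re, Complex.cos_ofReal_re] at h1 h2 h3 h4
  apply huv
  constructor
  · by_contra hu
    have e1 := h1.resolve_left hu
    have e2 := h2.resolve_left hu
    have e3 := Real.sin_sq_add_cos_sq z.1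
    rw [e1, e2] at e3
    norm_num at e3
  · by_contra hu
    have e1 := h3.resolve_left hu
    have e2 := h4.resolve_left hu
    have e3 := Real.sin_sq_add_cos_sq z.2
    rw [e1, e2] at e3
    norm_num at e3

/-- the connection form of a lift -/
theorem conn (hW : G_WAL) (hDIV : G_DIV) {a b : ℤ} {gM : W2 → W2 →L[ℝ] W2 →L[ℝ] ℝ}
    (base : IsBase (Mab a b) gM) (hrot : IsRotG gM) (δ : ℝ) (hδ : δ * (1 - a * b) = 1)
    {f : ℝ × ℝ → R4} (hf : ContDiff ℝ 2 f) (hg : ∀ z, Gauge a b z (f z))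
    (hh : (∀ z w, gM (rp z) (er z + im4 (f z)) (im4 w) = 0) ∨
      (∀ z w, gM (rp z) (es z + im4 (f z)) (im4 w) = 0)) :
    ∃ A : ℝ × ℝ → ℝ × ℝ, ContDiff ℝ 1 A ∧ ∀ z, ∃ o ∈ (Mab a b).O (rp z),
      im4 (f z) = im4 (0, -(A z).1 * Real.sin z.1, 0, -(A z).2 * Real.sin z.2) + o := by
  have hw : ∀ z, (Real.cos z.1 = 0 → (f z).1 = 0) ∧ (Real.sin z.1 = 0 → (f z).2.1 = 0) ∧
      (Real.cos z.2 = 0 → (f z).2.2.1 = 0) ∧ (Real.sin z.2 = 0 → (f z).2.2.2 = 0) := by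
    intro z
    refine hW a b gM base hrot z (f z) (hg z) ?_
    rcases hh with h | h
    · exact Or.inl (h z)
    · exact Or.inr (h z)
  have k1 : ContDiff ℝ 2 (fun z => (f z).1) := contDiff_fst.comp hf
  have k' : ContDiff ℝ 2 (fun z => (f z).2) := contDiff_snd.comp hf
  have k2 : ContDiff ℝ 2 (fun z => (f z).2.1) := contDiff_fst.comp k'
  have k'' : ContDiff ℝ 2 (fun z => (f z).2.2) := contDiff_snd.comp k'
  have k3 : ContDiff ℝ 2 (fun z => (f z).2.2.1) := contDiff_fst.comp k''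
  have k4 : ContDiff ℝ 2 (fun z => (f z).2.2.2) := contDiff_snd.comp k''
  obtain ⟨t1, ht1, e1⟩ := (hDIV _ k1).2.1 (fun z => (hw z).1)
  obtain ⟨t2, ht2, e2⟩ := (hDIV _ k2).1 (fun z => (hw z).2.1)
  obtain ⟨t3, ht3, e3⟩ := (hDIV _ k3).2.2.2 (fun z => (hw z).2.2.1)
  obtain ⟨t4, ht4, e4⟩ := (hDIV _ k4).2.2.1 (fun z => (hw z).2.2.2)
  refine ⟨fun z => (-(t2 z - δ * t1 z + δ * b * t3 z), -(t4 z + δ * a * t1 z - δ * t3 z)), ?_, ?_⟩
  · refine ContDiff.prodMk ?_ ?_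
    · exact ((ht2.sub (contDiff_const.mul ht1)).add (contDiff_const.mul ht3)).neg
    · exact ((ht4.add (contDiff_const.mul ht1)).sub (contDiff_const.mul ht3)).neg
  · intro z
    refine ⟨_, ⟨δ * (t1 z - b * t3 z), δ * (t3 z - a * t1 z), rfl⟩, ?_⟩
    have e : f z = (Real.cos z.1 * t1 z, Real.sin z.1 * t2 z, Real.cos z.2 * t3 z,
        Real.sin z.2 * t4 z) :=
      Prod.ext (e1 z) (Prod.ext (e2 z) (Prod.ext (e3 z) (e4 z)))
    rw [e, dec_im a b z δ (t1 z) (t2 z) (t3 z) (t4 z) hδ]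
    simp only [neg_neg]

/-- TD -/
theorem goalTD (hVL : G_VL) (hW : G_WAL) (hDIV : G_DIV) (hPL : G_PL2) : G_TD := by
  intro a b gM hab base hrot
  obtain ⟨δ, hδ⟩ : ∃ δ : ℝ, δ * (1 - a * b) = 1 := by
    rcases hab with h | ⟨h, h'⟩
    · exact ⟨1, by rw [h]; norm_num⟩
    · exact ⟨-1, by rw [h, h']; norm_num⟩
  have hne : a * b ≠ 1 := by
    rcases hab with h | ⟨h, h'⟩
    · rw [h]; norm_num
    · rw [h, h']; norm_num
  have hD : JacQ := (hPL a b hne).2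
  obtain ⟨vr, vs, cvr, cvs, hgau, hvr, hvs⟩ := hVL a b gM base
  obtain ⟨Ar, cAr, hAr⟩ := conn hW hDIV base hrot δ hδ cvr (fun z => (hgau z).1) (Or.inl hvr)
  obtain ⟨As, cAs, hAs⟩ := conn hW hDIV base hrot δ hδ cvs (fun z => (hgau z).2) (Or.inr hvs)
  have hvr' : ∀ y w, gM (rp y) (tv y 1 0 (vr y)) (im4 w) = 0 := by
    intro y w
    rw [← er_im]
    exact hvr y w
  have hvs' : ∀ y w, gM (rp y) (tv y 0 1 (vs y)) (im4 w) = 0 := by
    intro y w
    rw [← es_im]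
    exact hvs y w
  have hz0 : ∀ z, (0 : W2) ∈ (Mab a b).O (rp z) := fun z => ⟨0, 0, by simp⟩
  have prr : ∀ (z : ℝ × ℝ), gM (rp z) (tv z 1 0 (vr z)) (tv z 1 0 (vr z)) =
      gM (rp z) (tv z 1 0 (0, -(Ar z).1 * Real.sin z.1, 0, -(Ar z).2 * Real.sin z.2))
        (tv z 1 0 (0, -(Ar z).1 * Real.sin z.1, 0, -(Ar z).2 * Real.sin z.2)) := by
    intro z
    obtain ⟨o, ho, he⟩ := hAr z
    exact drop base z ho ho he he
  have prs : ∀ (z : ℝ × ℝ), gM (rp z) (tv z 1 0 (vr z)) (tv z 0 1 (vs z)) =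
      gM (rp z) (tv z 1 0 (0, -(Ar z).1 * Real.sin z.1, 0, -(Ar z).2 * Real.sin z.2))
        (tv z 0 1 (0, -(As z).1 * Real.sin z.1, 0, -(As z).2 * Real.sin z.2)) := by
    intro z
    obtain ⟨o, ho, he⟩ := hAr z
    obtain ⟨o', ho', he'⟩ := hAs z
    exact drop base z ho ho' he he'
  have pss : ∀ (z : ℝ × ℝ), gM (rp z) (tv z 0 1 (vs z)) (tv z 0 1 (vs z)) =
      gM (rp z) (tv z 0 1 (0, -(As z).1 * Real.sin z.1, 0, -(As z).2 * Real.sin z.2))
        (tv z 0 1 (0, -(As z).1 * Real.sin z.1, 0, -(As z).2 * Real.sin z.2)) := by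
    intro z
    obtain ⟨o, ho, he⟩ := hAs z
    exact drop base z ho ho he he
  have qr : ∀ (z : ℝ × ℝ) (w : R4), gM (rp z)
      (tv z 1 0 (0, -(Ar z).1 * Real.sin z.1, 0, -(Ar z).2 * Real.sin z.2)) (tv z 0 0 w) = 0 := by
    intro z w
    obtain ⟨o, ho, he⟩ := hAr z
    rw [← drop base z (w2 := w) ho (hz0 z) he (by rw [add_zero]), ← im_tv]
    exact hvr' z w
  have qs : ∀ (z : ℝ × ℝ) (w : R4), gM (rp z)
      (tv z 0 1 (0, -(As z).1 * Real.sin z.1, 0, -(As z).2 * Real.sin z.2)) (tv z 0 0 w) = 0 := by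
    intro z w
    obtain ⟨o, ho, he⟩ := hAs z
    rw [← drop base z (w2 := w) ho (hz0 z) he (by rw [add_zero]), ← im_tv]
    exact hvs' z w
  have hpos : ∀ (z : ℝ × ℝ) (u v : ℝ), ¬ (u = 0 ∧ v = 0) →
      0 < u ^ 2 * gM (rp z) (tv z 1 0 (vr z)) (tv z 1 0 (vr z)) +
        2 * u * v * gM (rp z) (tv z 1 0 (vr z)) (tv z 0 1 (vs z)) +
        v ^ 2 * gM (rp z) (tv z 0 1 (vs z)) (tv z 0 1 (vs z)) := by
    intro z u v huv
    have h1 := base.pos _ (rp_mem a b z) _ (tv_mem a b z u v (u • vr z + v • vs z))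
      (not_orb a b z u v _ huv)
    have h2 : tv z u v (u • vr z + v • vs z) = u • tv z 1 0 (vr z) + v • tv z 0 1 (vs z) := by
      rw [tv, tv, tv, im4_add, im4_smul, im4_smul]
      module
    have h3 : gM (rp z) (tv z 0 1 (vs z)) (tv z 1 0 (vr z)) =
        gM (rp z) (tv z 1 0 (vr z)) (tv z 0 1 (vs z)) :=
      base.symm _ (rp_mem a b z) _ (tv_mem a b z _ _ _) _ (tv_mem a b z _ _ _)
    rw [h2] at h1
    simp only [map_add, map_smul, add_apply, _root_.smul_apply, smul_eq_mul, h3] at h1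
    refine lt_of_lt_of_eq h1 ?_
    ring
  have hpr : ∀ (z : ℝ × ℝ) (u v u' v' : ℝ) (f f' : ℝ × ℝ → R4),
      (∀ y w, gM (rp y) (tv y u v (f y)) (im4 w) = 0) →
      (∀ y w, gM (rp y) (tv y u' v' (f' y)) (im4 w) = 0) →
      gM (rp (z.1 + Real.pi, z.2)) (tv (z.1 + Real.pi, z.2) u v (f (z.1 + Real.pi, z.2)))
        (tv (z.1 + Real.pi, z.2) u' v' (f' (z.1 + Real.pi, z.2))) =
      gM (rp z) (tv z u v (f z)) (tv z u' v' (f' z)) := by
    intro z u v u' v' f f' h1 h2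
    exact period base hrot (c := ((-1, -1), (1, 1))) (by simp) (by simp) (by simp) (by simp)
      (per_r z) (fun w => (-w.1, -w.2.1, w.2.2.1, w.2.2.2)) (fun w => by simp) (tv_r z) h1 h2
  have hps : ∀ (z : ℝ × ℝ) (u v u' v' : ℝ) (f f' : ℝ × ℝ → R4),
      (∀ y w, gM (rp y) (tv y u v (f y)) (im4 w) = 0) →
      (∀ y w, gM (rp y) (tv y u' v' (f' y)) (im4 w) = 0) →
      gM (rp (z.1, z.2 + Real.pi)) (tv (z.1, z.2 + Real.pi) u v (f (z.1, z.2 + Real.pi)))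
        (tv (z.1, z.2 + Real.pi) u' v' (f' (z.1, z.2 + Real.pi))) =
      gM (rp z) (tv z u v (f z)) (tv z u' v' (f' z)) := by
    intro z u v u' v' f f' h1 h2
    exact period base hrot (c := ((1, 1), (-1, -1))) (by simp) (by simp) (by simp) (by simp)
      (per_s z) (fun w => (w.1, w.2.1, -w.2.2.1, -w.2.2.2)) (fun w => by simp) (tv_s z) h1 h2
  refine ⟨fun z => gM (rp z) (tv z 1 0 (vr z)) (tv z 1 0 (vr z)),
    fun z => gM (rp z) (tv z 1 0 (vr z)) (tv z 0 1 (vs z)),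
    fun z => gM (rp z) (tv z 0 1 (vs z)) (tv z 0 1 (vs z)), Ar, As, ?_⟩
  refine ⟨cd_E base.smooth cvr cvr, cd_E base.smooth cvr cvs, cd_E base.smooth cvs cvs, cAr, cAs,
    ?_, ?_, ?_, ?_, ?_, ?_, ?_, ?_⟩
  · intro r s
    exact ⟨hpr (r, s) 1 0 1 0 vr vr hvr' hvr', hpr (r, s) 1 0 0 1 vr vs hvr' hvs',
      hpr (r, s) 0 1 0 1 vs vs hvs' hvs'⟩
  · intro r s
    exact ⟨hps (r, s) 1 0 1 0 vr vr hvr' hvr', hps (r, s) 1 0 0 1 vr vs hvr' hvs',
      hps (r, s) 0 1 0 1 vs vs hvs' hvs'⟩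
  · intro z
    have h1 : 0 < gM (rp z) (tv z 1 0 (vr z)) (tv z 1 0 (vr z)) := by
      refine lt_of_lt_of_eq (hpos z 1 0 (fun h => one_ne_zero h.1)) ?_
      ring
    refine ⟨h1, ?_⟩
    have h2 := hpos z (-gM (rp z) (tv z 1 0 (vr z)) (tv z 0 1 (vs z)))
      (gM (rp z) (tv z 1 0 (vr z)) (tv z 1 0 (vr z))) (fun h => h1.ne' h.2)
    refine (mul_pos_iff_of_pos_left h1).1 (lt_of_lt_of_eq h2 ?_)
    ring
  · intro x c d
    rw [hr, gB_form hrot hD]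
    exact qr (x.1, x.2.1) _
  · intro x c d
    rw [hs, gB_form hrot hD]
    exact qs (x.1, x.2.1) _
  · intro x
    rw [hr, gB_form hrot hD]
    exact (prr (x.1, x.2.1)).symm
  · intro x
    rw [hr, hs, gB_form hrot hD]
    exact (prs (x.1, x.2.1)).symm
  · intro x
    rw [hs, gB_form hrot hD]
    exact (pss (x.1, x.2.1)).symm

end Pool.Agent.Helper32.QT
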