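import Pool.Agent.Helper61.QT.GoalsP
import Pool.Agent.Helper93.QT.T1
import Pool.Agent.Helper23.QG.CVT
import Pool.Agent.Helper35.QT.GBX

/-!
# Project QT+ (MP_0ebdb3_gt), packet QT+-TK: O'Neill's formula for the torus bundle
-/

set_option autoImplicit false

open Set Filter Topology

namespace Pool.Agent.Helper32.QT

open Pool.Agent.Helper61 Pool.Agent.Helper61.QG Pool.Agent.Helper61.QT
open Pool.Agent.Helper61.QS (V En rk R4 IsCurv SecNN Gam dd)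
open Pool.Agent.Helper61.QM (Model W2 Mab pol2 act2 o1 o2 rot IsRe IsIm)

/-! ### The metric of the quotient -/

/-- the form `u₁ v₁` -/
noncomputable def B11 : (ℝ × ℝ) →L[ℝ] (ℝ × ℝ) →L[ℝ] ℝ :=
  (ContinuousLinearMap.fst ℝ ℝ ℝ).smulRight (ContinuousLinearMap.fst ℝ ℝ ℝ)

/-- the form `u₁ v₂ + u₂ v₁` -/
noncomputable def B12 : (ℝ × ℝ) →L[ℝ] (ℝ × ℝ) →L[ℝ] ℝ :=
  (ContinuousLinearMap.fst ℝ ℝ ℝ).smulRight (ContinuousLinearMap.snd ℝ ℝ ℝ) +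
    (ContinuousLinearMap.snd ℝ ℝ ℝ).smulRight (ContinuousLinearMap.fst ℝ ℝ ℝ)

/-- the form `u₂ v₂` -/
noncomputable def B22 : (ℝ × ℝ) →L[ℝ] (ℝ × ℝ) →L[ℝ] ℝ :=
  (ContinuousLinearMap.snd ℝ ℝ ℝ).smulRight (ContinuousLinearMap.snd ℝ ℝ ℝ)

/-- the metric `E dr² + 2 F dr ds + G ds²` -/
noncomputable def qf (E F G : ℝ × ℝ → ℝ) (z : ℝ × ℝ) : (ℝ × ℝ) →L[ℝ] (ℝ × ℝ) →L[ℝ] ℝ :=
  E z • B11 + F z • B12 + G z • B22

theorem qf_apply (E F G : ℝ × ℝ → ℝ) (z u v : ℝ × ℝ) : qf E F G z u v =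
    E z * (u.1 * v.1) + F z * (u.1 * v.2 + u.2 * v.1) + G z * (u.2 * v.2) := by
  simp [qf, B11, B12, B22]
  ring

theorem cd_smul_gen {X : Type} [NormedAddCommGroup X] [NormedSpace ℝ X] {E : ℝ × ℝ → ℝ}
    (hE : ContDiff ℝ 2 E) (B : X) : ContDiff ℝ 2 (fun z => E z • B) := hE.smul contDiff_const

theorem cd_qf {E F G : ℝ × ℝ → ℝ} (hE : ContDiff ℝ 2 E) (hF : ContDiff ℝ 2 F)
    (hG : ContDiff ℝ 2 G) : ContDiff ℝ 2 (qf E F G) :=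
  ((cd_smul_gen hE B11).add (cd_smul_gen hF B12)).add (cd_smul_gen hG B22)

theorem val_num (E F G p q p' q' : ℝ) (h : E * G - F ^ 2 ≠ 0) :
    E * ((G * p - F * q) / (E * G - F ^ 2) * ((G * p' - F * q') / (E * G - F ^ 2))) +
      F * ((G * p - F * q) / (E * G - F ^ 2) * ((E * q' - F * p') / (E * G - F ^ 2)) +
        (E * q - F * p) / (E * G - F ^ 2) * ((G * p' - F * q') / (E * G - F ^ 2))) +
      G * ((E * q - F * p) / (E * G - F ^ 2) * ((E * q' - F * p') / (E * G - F ^ 2))) =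
    (G * p * p' - F * (p * q' + q * p') + E * q * q') / (E * G - F ^ 2) := by
  rw [eq_div_iff h]
  generalize hD : E * G - F ^ 2 = D at *
  field_simp
  rw [← hD]
  ring

theorem fd_q {E F G : ℝ × ℝ → ℝ} (hE : Differentiable ℝ E) (hF : Differentiable ℝ F)
    (hG : Differentiable ℝ G) (u v z w : ℝ × ℝ) :
    fderiv ℝ (fun y => qf E F G y u v) z w = fderiv ℝ E z w * (u.1 * v.1) +
      fderiv ℝ F z w * (u.1 * v.2 + u.2 * v.1) + fderiv ℝ G z w * (u.2 * v.2) := by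
  have h : HasFDerivAt (fun y => qf E F G y u v) ((u.1 * v.1) • fderiv ℝ E z +
      (u.1 * v.2 + u.2 * v.1) • fderiv ℝ F z + (u.2 * v.2) • fderiv ℝ G z) z := by
    have h1 := (((hE z).hasFDerivAt.mul_const (u.1 * v.1)).add
      ((hF z).hasFDerivAt.mul_const (u.1 * v.2 + u.2 * v.1))).add
      ((hG z).hasFDerivAt.mul_const (u.2 * v.2))
    have h2 : (fun y => qf E F G y u v) = fun y => E y * (u.1 * v.1) +
        F y * (u.1 * v.2 + u.2 * v.1) + G y * (u.2 * v.2) := funext fun y => qf_apply E F G y u v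
    rw [h2]
    exact h1
  rw [h.fderiv]
  simp only [add_apply, _root_.smul_apply, smul_eq_mul]
  ring

theorem fd_dec (f : ℝ × ℝ → ℝ) (z y : ℝ × ℝ) :
    fderiv ℝ f z y = y.1 * d1 f z + y.2 * d2 f z := by
  have h : y = y.1 • ((1, 0) : ℝ × ℝ) + y.2 • ((0, 1) : ℝ × ℝ) := by
    refine Prod.ext ?_ ?_ <;> simp
  have h2 : fderiv ℝ f z (y.1 • ((1, 0) : ℝ × ℝ) + y.2 • ((0, 1) : ℝ × ℝ)) =
      y.1 * d1 f z + y.2 * d2 f z := by
    rw [map_add, map_smul, map_smul]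
    rfl
  rw [← h2, ← h]

/-- the curvature number of the quotient metric -/
theorem curv_q {E F G : ℝ × ℝ → ℝ} (hE : ContDiff ℝ 2 E) (hF : ContDiff ℝ 2 F)
    (hG : ContDiff ℝ 2 G) (z : ℝ × ℝ) (hdet : E z * G z - F z ^ 2 ≠ 0) :
    IsCurv (qf E F G) z (1, 0) (0, 1) (kap2 E F G z) := by
  have dE : Differentiable ℝ E := hE.differentiable (by norm_num)
  have dF : Differentiable ℝ F := hF.differentiable (by norm_num)
  have dG : Differentiable ℝ G := hG.differentiable (by norm_num)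
  have gab : ∀ y, Gam (qf E F G) z (1, 0) (0, 1) y = d2 E z / 2 * y.1 + d1 G z / 2 * y.2 := by
    intro y
    unfold Gam
    rw [fd_q dE dF dG, fd_q dE dF dG, fd_q dE dF dG, fd_dec F z y]
    change ((fderiv ℝ E z (1, 0) * (0 * y.1) + fderiv ℝ F z (1, 0) * (0 * y.2 + 1 * y.1) +
      fderiv ℝ G z (1, 0) * (1 * y.2)) + (fderiv ℝ E z (0, 1) * (1 * y.1) +
      fderiv ℝ F z (0, 1) * (1 * y.2 + 0 * y.1) + fderiv ℝ G z (0, 1) * (0 * y.2)) -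
      (fderiv ℝ E z y * (1 * 0) + (y.1 * d1 F z + y.2 * d2 F z) * (1 * 1 + 0 * 0) +
      fderiv ℝ G z y * (0 * 1))) / 2 = _
    unfold d1 d2
    ring
  have gaa : ∀ y, Gam (qf E F G) z (1, 0) (1, 0) y =
      d1 E z / 2 * y.1 + (d1 F z - d2 E z / 2) * y.2 := by
    intro y
    unfold Gam
    rw [fd_q dE dF dG, fd_q dE dF dG, fd_dec E z y]
    change ((fderiv ℝ E z (1, 0) * (1 * y.1) + fderiv ℝ F z (1, 0) * (1 * y.2 + 0 * y.1) +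
      fderiv ℝ G z (1, 0) * (0 * y.2)) + (fderiv ℝ E z (1, 0) * (1 * y.1) +
      fderiv ℝ F z (1, 0) * (1 * y.2 + 0 * y.1) + fderiv ℝ G z (1, 0) * (0 * y.2)) -
      ((y.1 * d1 E z + y.2 * d2 E z) * (1 * 1) + fderiv ℝ F z y * (1 * 0 + 0 * 1) +
      fderiv ℝ G z y * (0 * 0))) / 2 = _
    unfold d1 d2
    ring
  have gbb : ∀ y, Gam (qf E F G) z (0, 1) (0, 1) y =
      (d2 F z - d1 G z / 2) * y.1 + d2 G z / 2 * y.2 := by
    intro y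
    unfold Gam
    rw [fd_q dE dF dG, fd_q dE dF dG, fd_dec G z y]
    change ((fderiv ℝ E z (0, 1) * (0 * y.1) + fderiv ℝ F z (0, 1) * (0 * y.2 + 1 * y.1) +
      fderiv ℝ G z (0, 1) * (1 * y.2)) + (fderiv ℝ E z (0, 1) * (0 * y.1) +
      fderiv ℝ F z (0, 1) * (0 * y.2 + 1 * y.1) + fderiv ℝ G z (0, 1) * (1 * y.2)) -
      (fderiv ℝ E z y * (0 * 0) + fderiv ℝ F z y * (0 * 1 + 1 * 0) +
      (y.1 * d1 G z + y.2 * d2 G z) * (1 * 1))) / 2 = _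
    unfold d1 d2
    ring
  have e11 : (fun y => qf E F G y (1, 0) (1, 0)) = E := by
    funext y
    rw [qf_apply]
    ring
  have e12 : (fun y => qf E F G y (1, 0) (0, 1)) = F := by
    funext y
    rw [qf_apply]
    ring
  have e22 : (fun y => qf E F G y (0, 1) (0, 1)) = G := by
    funext y
    rw [qf_apply]
    ring
  refine ⟨((G z * (d2 E z / 2) - F z * (d1 G z / 2)) / (E z * G z - F z ^ 2),
      (E z * (d1 G z / 2) - F z * (d2 E z / 2)) / (E z * G z - F z ^ 2)),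
    ((G z * (d1 E z / 2) - F z * (d1 F z - d2 E z / 2)) / (E z * G z - F z ^ 2),
      (E z * (d1 F z - d2 E z / 2) - F z * (d1 E z / 2)) / (E z * G z - F z ^ 2)),
    ((G z * (d2 F z - d1 G z / 2) - F z * (d2 G z / 2)) / (E z * G z - F z ^ 2),
      (E z * (d2 G z / 2) - F z * (d2 F z - d1 G z / 2)) / (E z * G z - F z ^ 2)), ?_, ?_, ?_, ?_⟩
  · intro y
    rw [gab, qf_apply]
    field_simp
    ring
  · intro y
    rw [gaa, qf_apply]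
    field_simp
    ring
  · intro y
    rw [gbb, qf_apply]
    field_simp
    ring
  · rw [e11, e12, e22, qf_apply, qf_apply]
    have f1 : dd G z (1, 0) (1, 0) = d1 (d1 G) z := rfl
    have f2 : dd E z (0, 1) (0, 1) = d2 (d2 E) z := rfl
    have f3 : dd F z (1, 0) (0, 1) = d1 (d2 F) z := rfl
    rw [f1, f2, f3, val_num _ _ _ _ _ _ _ hdet, val_num _ _ _ _ _ _ _ hdet]
    unfold kap2
    generalize E z * G z - F z ^ 2 = D at *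
    field_simp
    ring

/-- the curvature number is unique -/
theorem curv_uniq {X : Type} [NormedAddCommGroup X] [NormedSpace ℝ X]
    (g : X → X →L[ℝ] X →L[ℝ] ℝ) (z a b : X) (hs : ∀ u v, g z u v = g z v u) {K K' : ℝ}
    (h : IsCurv g z a b K) (h' : IsCurv g z a b K') : K = K' := by
  obtain ⟨cab, caa, cbb, h1, h2, h3, h4⟩ := h
  obtain ⟨cab', caa', cbb', h1', h2', h3', h4'⟩ := h'
  have e1 : g z cab cab = g z cab' cab' := by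
    rw [h1 cab, ← h1' cab, hs, h1, ← h1']
  have e2 : g z caa cbb = g z caa' cbb' := by
    rw [h2 cbb, ← h2' cbb, hs, h3, ← h3', hs]
  rw [h4, h4', e1, e2]

/-- smoothness of the connection form at regular points -/
theorem smooth_A {u : ℝ × ℝ → R4 →L[ℝ] R4 →L[ℝ] ℝ} {z₀ : ℝ × ℝ} (hu : ContDiffAt ℝ 2 u z₀)
    (hs : ∀ z v w, u z v w = u z w v) (hp : ∀ v, v ≠ 0 → 0 < u z₀ v v) (e : R4)
    (A : ℝ × ℝ → ℝ × ℝ)
    (hA : ∀ (z : ℝ × ℝ) (c d : ℝ), u z (e + (0, 0, -(A z).1, -(A z).2)) (0, 0, c, d) = 0) :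
    ContDiffAt ℝ 2 A z₀ := by
  obtain ⟨e3, he3⟩ : ∃ e3 : R4, e3 = (0, 0, 1, 0) := ⟨_, rfl⟩
  obtain ⟨e4, he4⟩ : ∃ e4 : R4, e4 = (0, 0, 0, 1) := ⟨_, rfl⟩
  have hc : ∀ v w : R4, ContDiffAt ℝ 2 (fun z => u z v w) z₀ := fun v w =>
    (hu.clm_apply contDiffAt_const).clm_apply contDiffAt_const
  have hdet : 0 < u z₀ e3 e3 * u z₀ e4 e4 - u z₀ e3 e4 ^ 2 := by
    have h1 : 0 < u z₀ e3 e3 := hp e3 (by
      intro h
      have := congrArg (fun y : R4 => y.2.2.1) h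
      rw [he3] at this
      exact one_ne_zero this)
    have h2 := hp (-(u z₀ e3 e4) • e3 + (u z₀ e3 e3) • e4) (by
      intro h
      have h5 := congrArg (fun y : R4 => y.2.2.2) h
      have h6 : (-(u z₀ e3 e4) • e3 + (u z₀ e3 e3) • e4).2.2.2 = u z₀ e3 e3 := by
        have h7 : e3.2.2.2 = 0 := by rw [he3]
        have h8 : e4.2.2.2 = 1 := by rw [he4]
        have h9 : (-(u z₀ e3 e4) • e3 + (u z₀ e3 e3) • e4).2.2.2 =
          -(u z₀ e3 e4) * e3.2.2.2 + (u z₀ e3 e3) * e4.2.2.2 := rfl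
        rw [h9, h7, h8]
        ring
      have h7 : (-(u z₀ e3 e4) • e3 + (u z₀ e3 e3) • e4).2.2.2 = 0 := h5
      rw [h6] at h7
      exact h1.ne' h7)
    simp only [map_add, map_smul, add_apply, _root_.smul_apply, smul_eq_mul, hs z₀ e4 e3] at h2
    refine (mul_pos_iff_of_pos_left h1).1 (lt_of_lt_of_eq h2 ?_)
    ring
  have hdec : ∀ z, e + ((0, 0, -(A z).1, -(A z).2) : R4) = e + (-(A z).1 • e3 + -(A z).2 • e4) := by
    intro z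
    congr 1
    rw [he3, he4]
    simp
  have h1 : ∀ z, u z e e3 = (A z).1 * u z e3 e3 + (A z).2 * u z e3 e4 := by
    intro z
    have h := hA z 1 0
    rw [hdec, ← he3] at h
    simp only [map_add, map_smul, add_apply, _root_.smul_apply, smul_eq_mul, hs z e4 e3] at h
    linarith
  have h2 : ∀ z, u z e e4 = (A z).1 * u z e3 e4 + (A z).2 * u z e4 e4 := by
    intro z
    have h := hA z 0 1
    rw [hdec, ← he4] at h
    simp only [map_add, map_smul, add_apply, _root_.smul_apply, smul_eq_mul] at h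
    linarith
  have cdet : ContDiffAt ℝ 2 (fun z => u z e3 e3 * u z e4 e4 - u z e3 e4 ^ 2) z₀ :=
    ((hc e3 e3).mul (hc e4 e4)).sub ((hc e3 e4).pow 2)
  have hev : ∀ᶠ z in 𝓝 z₀, u z e3 e3 * u z e4 e4 - u z e3 e4 ^ 2 ≠ 0 :=
    cdet.continuousAt.eventually_ne hdet.ne'
  have hA' : A =ᶠ[𝓝 z₀] fun z => ((u z e e3 * u z e4 e4 - u z e e4 * u z e3 e4) /
      (u z e3 e3 * u z e4 e4 - u z e3 e4 ^ 2), (u z e e4 * u z e3 e3 - u z e e3 * u z e3 e4) /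
      (u z e3 e3 * u z e4 e4 - u z e3 e4 ^ 2)) := by
    filter_upwards [hev] with z hz
    refine Prod.ext ?_ ?_
    · rw [eq_div_iff hz, h1, h2]
      ring
    · rw [eq_div_iff hz, h1, h2]
      ring
  refine ContDiffAt.congr_of_eventuallyEq ?_ hA'
  refine ContDiffAt.prodMk ?_ ?_
  · exact (((hc e e3).mul (hc e4 e4)).sub ((hc e e4).mul (hc e3 e4))).div cdet hdet.ne'
  · exact (((hc e e4).mul (hc e3 e3)).sub ((hc e e3).mul (hc e3 e4))).div cdet hdet.ne'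

/-! ### The linear change of coordinates -/

/-- inclusion of the last two coordinates -/
noncomputable def jn : (ℝ × ℝ) →L[ℝ] R4 :=
  (0 : (ℝ × ℝ) →L[ℝ] ℝ).prod ((0 : (ℝ × ℝ) →L[ℝ] ℝ).prod (ContinuousLinearMap.id ℝ (ℝ × ℝ)))

theorem jn_apply (y : ℝ × ℝ) : jn y = (0, 0, y.1, y.2) := rfl

/-- projection to the last two coordinates -/
noncomputable def sn : R4 →L[ℝ] ℝ × ℝ :=
  (ContinuousLinearMap.snd ℝ ℝ (ℝ × ℝ)).comp (ContinuousLinearMap.snd ℝ ℝ (ℝ × ℝ × ℝ))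

/-- projection to the first two coordinates -/
noncomputable def prr4 : R4 →L[ℝ] ℝ × ℝ :=
  (ContinuousLinearMap.fst ℝ ℝ (ℝ × ℝ × ℝ)).prod
    ((ContinuousLinearMap.fst ℝ ℝ (ℝ × ℝ)).comp (ContinuousLinearMap.snd ℝ ℝ (ℝ × ℝ × ℝ)))

/-- `L (u, y) = (u, y - A u)` -/
noncomputable def f1 (A : (ℝ × ℝ) →L[ℝ] ℝ × ℝ) : ((ℝ × ℝ) × (ℝ × ℝ)) →L[ℝ] R4 :=
  ((ContinuousLinearMap.fst ℝ ℝ ℝ).comp (ContinuousLinearMap.fst ℝ (ℝ × ℝ) (ℝ × ℝ))).prod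
    (((ContinuousLinearMap.snd ℝ ℝ ℝ).comp (ContinuousLinearMap.fst ℝ (ℝ × ℝ) (ℝ × ℝ))).prod
      (ContinuousLinearMap.snd ℝ (ℝ × ℝ) (ℝ × ℝ) -
        A.comp (ContinuousLinearMap.fst ℝ (ℝ × ℝ) (ℝ × ℝ))))

theorem f1_apply (A : (ℝ × ℝ) →L[ℝ] ℝ × ℝ) (p : (ℝ × ℝ) × (ℝ × ℝ)) :
    f1 A p = (p.1.1, p.1.2, p.2 - A p.1) := rfl

/-- the inverse -/
noncomputable def f2 (A : (ℝ × ℝ) →L[ℝ] ℝ × ℝ) : R4 →L[ℝ] (ℝ × ℝ) × (ℝ × ℝ) :=
  prr4.prod (sn + A.comp prr4)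

theorem f2_apply (A : (ℝ × ℝ) →L[ℝ] ℝ × ℝ) (x : R4) :
    f2 A x = ((x.1, x.2.1), (x.2.2 + A (x.1, x.2.1))) := rfl

/-- the change of coordinates -/
noncomputable def Lc (A : (ℝ × ℝ) →L[ℝ] ℝ × ℝ) : ((ℝ × ℝ) × (ℝ × ℝ)) ≃L[ℝ] R4 :=
  ContinuousLinearEquiv.equivOfInverse (f1 A) (f2 A)
    (fun p => by
      rw [f1_apply, f2_apply]
      refine Prod.ext rfl ?_
      change p.2 - A p.1 + A p.1 = p.2
      rw [sub_add_cancel])
    (fun x => by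
      rw [f2_apply, f1_apply]
      refine Prod.ext rfl (Prod.ext rfl ?_)
      change x.2.2 + A (x.1, x.2.1) - A (x.1, x.2.1) = x.2.2
      rw [add_sub_cancel_right])

theorem Lc_apply (A : (ℝ × ℝ) →L[ℝ] ℝ × ℝ) (p : (ℝ × ℝ) × (ℝ × ℝ)) :
    Lc A p = (p.1.1, p.1.2, p.2 - A p.1) := rfl

/-- the connection form as an operator -/
noncomputable def Af (Ar As : ℝ × ℝ → ℝ × ℝ) (z : ℝ × ℝ) : (ℝ × ℝ) →L[ℝ] ℝ × ℝ :=
  (ContinuousLinearMap.fst ℝ ℝ ℝ).smulRight (Ar z) +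
    (ContinuousLinearMap.snd ℝ ℝ ℝ).smulRight (As z)

theorem Af_apply (Ar As : ℝ × ℝ → ℝ × ℝ) (z u : ℝ × ℝ) :
    Af Ar As z u = u.1 • Ar z + u.2 • As z := rfl

/-- smoothness of `smulRight` -/
theorem cd_smulRight {X : Type} [NormedAddCommGroup X] [NormedSpace ℝ X] (l : (ℝ × ℝ) →L[ℝ] ℝ)
    {f : X → ℝ × ℝ} {z : X} (hf : ContDiffAt ℝ 2 f z) :
    ContDiffAt ℝ 2 (fun y => l.smulRight (f y)) z :=
  (ContinuousLinearMap.smulRightL ℝ (ℝ × ℝ) (ℝ × ℝ) l).contDiff.contDiffAt.comp z hf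

theorem cd_Af {Ar As : ℝ × ℝ → ℝ × ℝ} {z : ℝ × ℝ} (h1 : ContDiffAt ℝ 2 Ar z)
    (h2 : ContDiffAt ℝ 2 As z) : ContDiffAt ℝ 2 (Af Ar As) z :=
  (cd_smulRight _ h1).add (cd_smulRight _ h2)

/-- the vertical part -/
noncomputable def Nn (Ar As : ℝ × ℝ → ℝ × ℝ) (z₀ : ℝ × ℝ) (p : (ℝ × ℝ) × (ℝ × ℝ)) :
    ((ℝ × ℝ) × (ℝ × ℝ)) →L[ℝ] ℝ × ℝ :=
  ContinuousLinearMap.snd ℝ (ℝ × ℝ) (ℝ × ℝ) +
    (Af Ar As p.1 - Af Ar As z₀).comp (ContinuousLinearMap.fst ℝ (ℝ × ℝ) (ℝ × ℝ))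

theorem Nn_apply (Ar As : ℝ × ℝ → ℝ × ℝ) (z₀ : ℝ × ℝ) (p ξ : (ℝ × ℝ) × (ℝ × ℝ)) :
    Nn Ar As z₀ p ξ = ξ.2 + (Af Ar As p.1 ξ.1 - Af Ar As z₀ ξ.1) := rfl

theorem cd_Nn {Ar As : ℝ × ℝ → ℝ × ℝ} {z : ℝ × ℝ} (w : ℝ × ℝ) (h1 : ContDiffAt ℝ 2 Ar z)
    (h2 : ContDiffAt ℝ 2 As z) : ContDiffAt ℝ 2 (Nn Ar As z) (z, w) := by
  refine ContDiffAt.add contDiffAt_const (ContDiffAt.clm_comp ?_ contDiffAt_const)
  refine ContDiffAt.sub ?_ contDiffAt_const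
  exact ContDiffAt.comp (z, w) (g := Af Ar As) (f := Prod.fst) (cd_Af h1 h2) contDiffAt_fst

/-- the derivative of the vertical part -/
theorem fd_Nn {Ar As : ℝ × ℝ → ℝ × ℝ} {z : ℝ × ℝ} (w : ℝ × ℝ) (h1 : DifferentiableAt ℝ Ar z)
    (h2 : DifferentiableAt ℝ As z) (u v : ℝ × ℝ) :
    (fderiv ℝ (Nn Ar As z) (z, w) (u, 0)) (v, 0) =
      v.1 • fderiv ℝ Ar z u + v.2 • fderiv ℝ As z u := by
  have hf : HasFDerivAt (fun p : (ℝ × ℝ) × (ℝ × ℝ) => p.1)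
    (ContinuousLinearMap.fst ℝ (ℝ × ℝ) (ℝ × ℝ)) (z, w) := hasFDerivAt_fst
  have k1 : HasFDerivAt (fun p : (ℝ × ℝ) × (ℝ × ℝ) => Ar p.1)
      ((fderiv ℝ Ar z).comp (ContinuousLinearMap.fst ℝ (ℝ × ℝ) (ℝ × ℝ))) (z, w) :=
    HasFDerivAt.comp (z, w) (g := Ar) (h1.hasFDerivAt) hf
  have k2 : HasFDerivAt (fun p : (ℝ × ℝ) × (ℝ × ℝ) => As p.1)
      ((fderiv ℝ As z).comp (ContinuousLinearMap.fst ℝ (ℝ × ℝ) (ℝ × ℝ))) (z, w) :=
    HasFDerivAt.comp (z, w) (g := As) (h2.hasFDerivAt) hf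
  have hd : DifferentiableAt ℝ (Nn Ar As z) (z, w) := by
    have l1 : DifferentiableAt ℝ (fun p : (ℝ × ℝ) × (ℝ × ℝ) =>
        (ContinuousLinearMap.fst ℝ ℝ ℝ).smulRight (Ar p.1)) (z, w) :=
      ((ContinuousLinearMap.smulRightL ℝ (ℝ × ℝ) (ℝ × ℝ)
        (ContinuousLinearMap.fst ℝ ℝ ℝ)).hasFDerivAt.comp (z, w) k1).differentiableAt
    have l2 : DifferentiableAt ℝ (fun p : (ℝ × ℝ) × (ℝ × ℝ) =>
        (ContinuousLinearMap.snd ℝ ℝ ℝ).smulRight (As p.1)) (z, w) :=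
      ((ContinuousLinearMap.smulRightL ℝ (ℝ × ℝ) (ℝ × ℝ)
        (ContinuousLinearMap.snd ℝ ℝ ℝ)).hasFDerivAt.comp (z, w) k2).differentiableAt
    exact (differentiableAt_const _).add (((l1.add l2).sub
      (differentiableAt_const _)).clm_comp (differentiableAt_const _))
  have e1 : HasFDerivAt (fun p : (ℝ × ℝ) × (ℝ × ℝ) => Nn Ar As z p (v, 0))
      ((fderiv ℝ (Nn Ar As z) (z, w)).flip (v, 0)) (z, w) := by
    have h := hd.hasFDerivAt.clm_apply (hasFDerivAt_const ((v, (0 : ℝ × ℝ)) : (ℝ × ℝ) × (ℝ × ℝ)) (z, w))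
    rw [ContinuousLinearMap.comp_zero, zero_add] at h
    exact h
  have e2 : HasFDerivAt (fun p : (ℝ × ℝ) × (ℝ × ℝ) => Nn Ar As z p (v, 0))
      (v.1 • ((fderiv ℝ Ar z).comp (ContinuousLinearMap.fst ℝ (ℝ × ℝ) (ℝ × ℝ))) +
        v.2 • ((fderiv ℝ As z).comp (ContinuousLinearMap.fst ℝ (ℝ × ℝ) (ℝ × ℝ)))) (z, w) := by
    have h := ((k1.const_smul v.1).add (k2.const_smul v.2)).sub_const (Af Ar As z v)
    have h3 : (fun p : (ℝ × ℝ) × (ℝ × ℝ) => Nn Ar As z p (v, 0)) =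
        fun p => v.1 • Ar p.1 + v.2 • As p.1 - Af Ar As z v := by
      funext p
      rw [Nn_apply, Af_apply]
      exact zero_add _
    rw [h3]
    exact h
  have e3 := e1.unique e2
  have e4 := congrArg (fun T : ((ℝ × ℝ) × (ℝ × ℝ)) →L[ℝ] ℝ × ℝ => T (u, 0)) e3
  exact e4

/-- TK -/
theorem goalTK (hPL : G_PL2) (hBX : G_GBX) (hG2 : QS.G_G2) : G_TK := by
  intro a b gM E F G Ar As hab base hrot D x hx K hK
  obtain ⟨hpol, hD⟩ := hPL a b hab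
  obtain ⟨hsm, hsymm, hposR, _⟩ := hBX W2 (Mab a b) pol2 Reg2 gM hpol base
  have hD' : Pool.Agent.Helper93.QT.JacP := hD
  obtain ⟨h, hh⟩ : ∃ h, h = gB gM pol2 := ⟨_, rfl⟩
  have hval : ∀ x u v, h x u v = gM (pol2 x) (fderiv ℝ pol2 x u) (fderiv ℝ pol2 x v) := by
    intro x u v
    rw [hh]
    rfl
  rw [← hh] at hsm hsymm hposR hK
  have hinv : ∀ x u v, h x u v = h (x.1, x.2.1, 0, 0) u v := by
    intro x u v
    rw [hval, hval, Pool.Agent.Helper93.QT.pol_rot x, Pool.Agent.Helper93.QT.D_rot hD' x u,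
      Pool.Agent.Helper93.QT.D_rot hD' x v]
    exact hrot _ norm_one (Complex.norm_exp_ofReal_mul_I _) norm_one
      (Complex.norm_exp_ofReal_mul_I _) _ (hpol.mem _) _ (hpol.tan _ u) _ (hpol.tan _ v)
  have orr : ∀ (x : R4) (c d : ℝ), h x (hr Ar x) (0, 0, c, d) = 0 := by
    rw [hh]; exact D.orr
  have ors : ∀ (x : R4) (c d : ℝ), h x (hs As x) (0, 0, c, d) = 0 := by
    rw [hh]; exact D.ors
  have eE : ∀ x : R4, h x (hr Ar x) (hr Ar x) = E (x.1, x.2.1) := by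
    rw [hh]; exact D.eE
  have eF : ∀ x : R4, h x (hr Ar x) (hs As x) = F (x.1, x.2.1) := by
    rw [hh]; exact D.eF
  have eG : ∀ x : R4, h x (hs As x) (hs As x) = G (x.1, x.2.1) := by
    rw [hh]; exact D.eG
  rw [← hh]
  -- restriction to `α = β = 0`
  obtain ⟨h0, hh0⟩ : ∃ h0 : ℝ × ℝ → R4 →L[ℝ] R4 →L[ℝ] ℝ, h0 = fun z => h (z.1, z.2, 0, 0) :=
    ⟨_, rfl⟩
  have hι : ContDiff ℝ 2 (fun z : ℝ × ℝ => ((z.1, z.2, 0, 0) : R4)) :=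
    contDiff_fst.prodMk (contDiff_snd.prodMk (contDiff_const.prodMk contDiff_const))
  have hsm0 : ContDiff ℝ 2 h0 := by
    rw [hh0]
    exact hsm.comp hι
  have hsy0 : ∀ z v w, h0 z v w = h0 z w v := by
    intro z v w
    rw [hh0]
    exact hsymm _ v w
  obtain ⟨z₀, hz₀⟩ : ∃ z₀ : ℝ × ℝ, z₀ = (x.1, x.2.1) := ⟨_, rfl⟩
  have hx0 : ∀ u v, h0 z₀ u v = h x u v := by
    intro u v
    rw [hinv x, hh0, hz₀]
  have hp0 : ∀ v, v ≠ 0 → 0 < h0 z₀ v v := by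
    intro v hv
    rw [hx0]
    exact hposR x hx v hv
  have hcAr : ContDiffAt ℝ 2 Ar z₀ := by
    refine smooth_A hsm0.contDiffAt hsy0 hp0 (1, 0, 0, 0) Ar ?_
    intro z c d
    have h1 := orr (z.1, z.2, 0, 0) c d
    have h2 : hr Ar (z.1, z.2, 0, 0) = (1, 0, 0, 0) + ((0, 0, -(Ar z).1, -(Ar z).2) : R4) := by
      rw [hr]
      simp
    rw [h2] at h1
    rw [hh0]
    exact h1
  have hcAs : ContDiffAt ℝ 2 As z₀ := by
    refine smooth_A hsm0.contDiffAt hsy0 hp0 (0, 1, 0, 0) As ?_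
    intro z c d
    have h1 := ors (z.1, z.2, 0, 0) c d
    have h2 : hs As (z.1, z.2, 0, 0) = (0, 1, 0, 0) + ((0, 0, -(As z).1, -(As z).2) : R4) := by
      rw [hs]
      simp
    rw [h2] at h1
    rw [hh0]
    exact h1
  obtain ⟨γ, hγ⟩ : ∃ γ : (ℝ × ℝ) × (ℝ × ℝ) → (ℝ × ℝ) →L[ℝ] (ℝ × ℝ) →L[ℝ] ℝ,
    γ = fun p => (h0 p.1).bilinearComp jn jn := ⟨_, rfl⟩
  have hγv : ∀ p y y', γ p y y' = h0 p.1 (jn y) (jn y') := by
    intro p y y'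
    rw [hγ]
    rfl
  obtain ⟨w₀, hw₀⟩ : ∃ w₀ : ℝ × ℝ, w₀ = x.2.2 + Af Ar As z₀ (x.1, x.2.1) := ⟨_, rfl⟩
  have hLx : Lc (Af Ar As z₀) (z₀, w₀) = x := by
    rw [Lc_apply, hw₀, hz₀]
    refine Prod.ext rfl (Prod.ext rfl ?_)
    exact add_sub_cancel_right _ _
  have hcγ : ContDiffAt ℝ 2 γ (z₀, w₀) := by
    have h1 : ContDiff ℝ 2 (fun p : (ℝ × ℝ) × (ℝ × ℝ) => h0 p.1) := hsm0.comp contDiff_fst
    have h5 := Pool.Agent.Helper35.QT.contDiff_bilinearComp h1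
      (contDiff_const (c := jn)) (contDiff_const (c := jn))
    rw [hγ]
    exact h5.contDiffAt
  have hmain := hG2 (ℝ × ℝ) (ℝ × ℝ) (ℝ × ℝ) (qf E F G) γ (Nn Ar As z₀) z₀ w₀ (1, 0) (0, 1)
    (kap2 E F G z₀) (cd_qf D.smE D.smF D.smG).contDiffAt hcγ (cd_Nn w₀ hcAr hcAs)
    (fun c => by
      rw [Nn_apply]
      exact (zero_add _).trans (sub_self _))
    (fun u v => ⟨(fderiv ℝ (Nn Ar As z₀) (z₀, w₀) (u, 0)) (v, 0), by
      rw [Nn_apply]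
      exact (congrArg (fun t => _ + t) (sub_self _)).trans (add_zero _)⟩)
    (fun u v => by
      rw [hγv, hγv, hsy0])
    (curv_q D.smE D.smF D.smG z₀ (D.pos z₀).2.ne')
  rw [fd_Nn w₀ (hcAr.differentiableAt (by norm_num)) (hcAs.differentiableAt (by norm_num)),
    fd_Nn w₀ (hcAr.differentiableAt (by norm_num)) (hcAs.differentiableAt (by norm_num))] at hmain
  obtain ⟨g, hg⟩ : ∃ g : (ℝ × ℝ) × (ℝ × ℝ) → ((ℝ × ℝ) × (ℝ × ℝ)) →L[ℝ]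
      ((ℝ × ℝ) × (ℝ × ℝ)) →L[ℝ] ℝ, g = fun z => (qf E F G z.1).bilinearComp
        (ContinuousLinearMap.fst ℝ (ℝ × ℝ) (ℝ × ℝ)) (ContinuousLinearMap.fst ℝ (ℝ × ℝ) (ℝ × ℝ)) +
        (γ z).bilinearComp (Nn Ar As z₀ z) (Nn Ar As z₀ z) := ⟨_, rfl⟩
  rw [← hg] at hmain
  have hOm : ((0 : ℝ × ℝ), (1 : ℝ)) = ((0 : ℝ × ℝ), (1 : ℝ)) := rfl
  have key : ∀ p ξ ξ', g p ξ ξ' = h (Lc (Af Ar As z₀) p) (Lc (Af Ar As z₀) ξ)
      (Lc (Af Ar As z₀) ξ') := by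
    intro p ξ ξ'
    have e0 : ∀ ξ, Lc (Af Ar As z₀) ξ = ξ.1.1 • hr Ar (Lc (Af Ar As z₀) p) +
        ξ.1.2 • hs As (Lc (Af Ar As z₀) p) + jn (Nn Ar As z₀ p ξ) := by
      intro ξ
      rw [Lc_apply, Lc_apply, Nn_apply, Af_apply, Af_apply, jn_apply, hr, hs]
      refine Prod.ext ?_ (Prod.ext ?_ (Prod.ext ?_ ?_))
      · simp
      · simp
      · change ξ.2.1 - (ξ.1.1 * (Ar z₀).1 + ξ.1.2 * (As z₀).1) =
          ξ.1.1 * -(Ar p.1).1 + ξ.1.2 * -(As p.1).1 + (ξ.2.1 + ((ξ.1.1 * (Ar p.1).1 +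
          ξ.1.2 * (As p.1).1) - (ξ.1.1 * (Ar z₀).1 + ξ.1.2 * (As z₀).1)))
        ring
      · change ξ.2.2 - (ξ.1.1 * (Ar z₀).2 + ξ.1.2 * (As z₀).2) =
          ξ.1.1 * -(Ar p.1).2 + ξ.1.2 * -(As p.1).2 + (ξ.2.2 + ((ξ.1.1 * (Ar p.1).2 +
          ξ.1.2 * (As p.1).2) - (ξ.1.1 * (Ar z₀).2 + ξ.1.2 * (As z₀).2)))
        ring
    have e1 : g p ξ ξ' = qf E F G p.1 ξ.1 ξ'.1 + γ p (Nn Ar As z₀ p ξ) (Nn Ar As z₀ p ξ') := by
      rw [hg]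
      rfl
    have e2 : ∀ y y', h (Lc (Af Ar As z₀) p) (jn y) (jn y') = γ p y y' := by
      intro y y'
      rw [hγv, hinv, hh0]
      rfl
    have e3 : ∀ y, h (Lc (Af Ar As z₀) p) (hr Ar (Lc (Af Ar As z₀) p)) (jn y) = 0 := fun y =>
      orr _ y.1 y.2
    have e4 : ∀ y, h (Lc (Af Ar As z₀) p) (hs As (Lc (Af Ar As z₀) p)) (jn y) = 0 := fun y =>
      ors _ y.1 y.2
    have e3' : ∀ y, h (Lc (Af Ar As z₀) p) (jn y) (hr Ar (Lc (Af Ar As z₀) p)) = 0 := fun y => by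
      rw [hsymm]
      exact e3 y
    have e4' : ∀ y, h (Lc (Af Ar As z₀) p) (jn y) (hs As (Lc (Af Ar As z₀) p)) = 0 := fun y => by
      rw [hsymm]
      exact e4 y
    have e5 : h (Lc (Af Ar As z₀) p) (hr Ar (Lc (Af Ar As z₀) p)) (hr Ar (Lc (Af Ar As z₀) p)) =
      E p.1 := eE _
    have e6 : h (Lc (Af Ar As z₀) p) (hr Ar (Lc (Af Ar As z₀) p)) (hs As (Lc (Af Ar As z₀) p)) =
      F p.1 := eF _
    have e7 : h (Lc (Af Ar As z₀) p) (hs As (Lc (Af Ar As z₀) p)) (hs As (Lc (Af Ar As z₀) p)) =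
      G p.1 := eG _
    have e8 : h (Lc (Af Ar As z₀) p) (hs As (Lc (Af Ar As z₀) p)) (hr Ar (Lc (Af Ar As z₀) p)) =
      F p.1 := by
      rw [hsymm]
      exact e6
    rw [e1, e0 ξ, e0 ξ', qf_apply]
    simp only [map_add, map_smul, add_apply, _root_.smul_apply, smul_eq_mul, e2, e3, e4, e3', e4',
      e5, e6, e7, e8]
    ring
  have hK' : QM.IsCurv (fun p ξ ξ' => g p ξ ξ') (z₀, w₀) ((1, 0), 0) ((0, 1), 0) K := by
    refine Pool.Agent.Helper23.QG.curv_nat (Lc (Af Ar As z₀)) (fun p ξ ξ' => g p ξ ξ') h (z₀, w₀)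
      (Eventually.of_forall fun p => fun ξ ξ' => key p ξ ξ') _ _ K ?_
    have e1 : Lc (Af Ar As z₀) ((1, 0), 0) = hr Ar x := by
      rw [Lc_apply, Af_apply, hr, ← hz₀]
      refine Prod.ext rfl (Prod.ext rfl ?_)
      refine Prod.ext ?_ ?_
      · simp
      · simp
    have e2 : Lc (Af Ar As z₀) ((0, 1), 0) = hs As x := by
      rw [Lc_apply, Af_apply, hs, ← hz₀]
      refine Prod.ext rfl (Prod.ext rfl ?_)
      refine Prod.ext ?_ ?_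
      · simp
      · simp
    rw [hLx, e1, e2]
    exact hK
  have hfin := curv_uniq g (z₀, w₀) ((1, 0), 0) ((0, 1), 0)
    (fun u v => by rw [key, key, hsymm]) hK' hmain
  rw [hfin, hγv]
  have hΩ : ((0, 1) : ℝ × ℝ).1 • fderiv ℝ Ar z₀ (1, 0) + ((0, 1) : ℝ × ℝ).2 • fderiv ℝ As z₀ (1, 0) -
      (((1, 0) : ℝ × ℝ).1 • fderiv ℝ Ar z₀ (0, 1) + ((1, 0) : ℝ × ℝ).2 • fderiv ℝ As z₀ (0, 1)) =
      Om Ar As z₀ := by
    rw [Om]
    simp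
  rw [hΩ, hx0, ← hz₀, jn_apply]

end Pool.Agent.Helper32.QT
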